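import Pool.Agent.Lib.H10BMM.Main

/-!
# The BMM trace and the lifting conjecture for the imprimitive reflection groups `G(de,e,n)`

`W = G(de,e,n)`, `n ≥ 2`, `de ≥ 2`, and `e` odd if `n = 2` (so that the reflecting hyperplanes
`z_i = ζ z_j` form one `W`-orbit).  We prove that the generic Hecke algebra `H(W)` over
`R = ℤ[u^{±1}, v^{±1}]` has a BMM trace `τ` (conditions (1) and (2) included), and that the
projection `B(W) → W` has a section `s` with `s 1 = 1` and `τ (T_{s w}) = δ_{1 w}`; moreover the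
`T_{s w}` form an `R`-basis of `H(W)`.
-/

namespace Pool.Agent.Results.MP_a45c20_al.LiftImprimitive

open Pool.Agent.Lib.H10BMM

open Classical in
theorem result (d e n : ℕ) (hd : 0 < d) (he : 0 < e) (hn : 2 ≤ n) (_hde : 2 ≤ d * e)
    (_h2 : n = 2 → Odd e) :
    ∃ τ : HeckeAlg d e n →ₗ[Rd d] Rd d, IsBMMTrace d e n τ ∧
      ∃ s : WG d e n → BraidW d e n, (∀ w, pr d e n (s w) = w) ∧ s 1 = 1 ∧
        (∀ w, tauT d e n τ (s w) = if w = 1 then 1 else 0) ∧
        ∃ b : Module.Basis (WG d e n) (Rd d) (HeckeAlg d e n), ∀ w, b w = TB d e n (s w) :=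
  main_stm hd he (by omega)

end Pool.Agent.Results.MP_a45c20_al.LiftImprimitive
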